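import Mathlib

open Metric Set
open scoped ContDiff

namespace Pool.Agent.SFill

/-- The space `ℂ^n`. -/
abbrev Cn (n : ℕ) := EuclideanSpace ℂ (Fin n)

/-- The space `ℂ^(n+1)`: a point is the pair (first `n` coordinates, last coordinate). -/
abbrev Amb (n : ℕ) := Cn n × ℂ

/-- The standard Hermitian product of `ℂ^(n+1)`, conjugate linear in the first variable. -/
noncomputable def herm {n : ℕ} (p q : Amb n) : ℂ :=
  inner ℂ p.1 q.1 + (starRingEnd ℂ) p.2 * q.2

/-- The standard symplectic form `Σ dx_j ∧ dy_j` of `ℂ^(n+1)`. -/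
noncomputable def omega {n : ℕ} (p q : Amb n) : ℝ := (herm p q).im

/-- The square of the Euclidean norm of a point of `ℂ^(n+1)`. -/
noncomputable def sqn {n : ℕ} (p : Amb n) : ℝ := ‖p.1‖ ^ 2 + ‖p.2‖ ^ 2

/-- The standard contact sphere `K`: points of the unit sphere whose last coordinate is `0`. -/
def K (n : ℕ) : Set (Amb n) := {p | sqn p = 1 ∧ p.2 = 0}

/-- The standard disc `D₀`: points of the closed unit ball whose last coordinate is `0`. -/
def D0 (n : ℕ) : Set (Amb n) := {p | sqn p ≤ 1 ∧ p.2 = 0}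

/-- The closed unit ball of `ℂ^n`, the parameter domain. -/
def UB (n : ℕ) : Set (Cn n) := closedBall 0 1

/-- The unit sphere of `ℂ^n`. -/
def US (n : ℕ) : Set (Cn n) := sphere 0 1

/-- The tangent map of `F` at `x`, applied to `u`. -/
noncomputable def tan {n : ℕ} (F : Cn n → Amb n) (x u : Cn n) : Amb n := fderiv ℝ F x u

/-- `F` is smooth and its restriction to the closed unit ball is an embedding (an injective
immersion). -/
def Embeds {n : ℕ} (F : Cn n → Amb n) : Prop :=
  ContDiff ℝ ∞ F ∧ InjOn F (UB n) ∧ ∀ x ∈ UB n, ∀ u, tan F x u = 0 → u = 0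

/-- `F` maps the unit sphere onto `K` and the open unit ball into the open unit ball. -/
def Fits {n : ℕ} (F : Cn n → Amb n) : Prop :=
  F '' US n = K n ∧ ∀ x ∈ UB n, x ∉ US n → sqn (F x) < 1

/-- The image of `F` is transversal to the unit sphere of `ℂ^(n+1)` along its boundary. -/
def Transversal {n : ℕ} (F : Cn n → Amb n) : Prop :=
  ∀ x ∈ US n, ∃ u, (herm (F x) (tan F x u)).re ≠ 0

/-- The standard symplectic form is nondegenerate on the tangent spaces of the image of `F`. -/
def Symplectic {n : ℕ} (F : Cn n → Amb n) : Prop :=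
  ∀ x ∈ UB n, ∀ u, u ≠ 0 → ∃ v, omega (tan F x u) (tan F x v) ≠ 0

/-- `F` parametrises, by the closed unit ball of `ℂ^n`, a symplectic filling of `K` inside the
closed unit ball of `ℂ^(n+1)`. -/
structure Fills {n : ℕ} (F : Cn n → Amb n) : Prop where
  embeds : Embeds F
  fits : Fits F
  transversal : Transversal F
  symplectic : Symplectic F

/-- Two fillings (as subsets) are symplectically isotopic: they are joined by a smooth family of
fillings. -/
def Isotopic {n : ℕ} (S₀ S₁ : Set (Amb n)) : Prop :=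
  ∃ H : ℝ × Cn n → Amb n, ContDiff ℝ ∞ H ∧ (∀ t ∈ Icc (0 : ℝ) 1, Fills fun x => H (t, x)) ∧
    (fun x => H (0, x)) '' UB n = S₀ ∧ (fun x => H (1, x)) '' UB n = S₁

end Pool.Agent.SFill
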