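import Mathlib

open Metric Set Filter Topology

namespace Pool.Agent.SFill

/-- A local diffeomorphism of the closed unit ball which maps the sphere injectively to the sphere
and the open ball to the open ball is injective. -/
theorem injOn_of_local {E : Type*} [NormedAddCommGroup E] [NormedSpace ℝ E]
    [FiniteDimensional ℝ E] [Nontrivial E]
    {P : E → E} (hc : Continuous P)
    (hder : ∀ x ∈ closedBall (0 : E) 1, ∃ A : E ≃L[ℝ] E, HasStrictFDerivAt P (A : E →L[ℝ] E) x)
    (hS : InjOn P (sphere (0 : E) 1)) (hS' : MapsTo P (sphere (0 : E) 1) (sphere (0 : E) 1))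
    (hB : MapsTo P (ball (0 : E) 1) (ball (0 : E) 1)) :
    InjOn P (closedBall (0 : E) 1) := by
  classical
  -- local injectivity
  have hloc : ∀ x ∈ closedBall (0 : E) 1, ∃ U : Set E, IsOpen U ∧ x ∈ U ∧ InjOn P U := by
    intro x hx
    obtain ⟨A, hA⟩ := hder x hx
    refine ⟨(hA.toOpenPartialHomeomorph P).source, (hA.toOpenPartialHomeomorph P).open_source,
      hA.mem_toOpenPartialHomeomorph_source, ?_⟩
    have := (hA.toOpenPartialHomeomorph P).injOn
    simpa using this
  choose! U hUo hUx hUi using hloc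
  -- the set of double points
  set C : Set (E × E) := {p | p.1 ∈ closedBall (0 : E) 1 ∧ p.2 ∈ closedBall (0 : E) 1 ∧
    P p.1 = P p.2} with hC
  have hCc : IsCompact C := by
    have h1 : IsCompact (closedBall (0 : E) 1 ×ˢ closedBall (0 : E) 1) :=
      (isCompact_closedBall 0 1).prod (isCompact_closedBall 0 1)
    have h2 : IsClosed {p : E × E | P p.1 = P p.2} :=
      isClosed_eq (hc.comp continuous_fst) (hc.comp continuous_snd)
    have : C = (closedBall (0 : E) 1 ×ˢ closedBall (0 : E) 1) ∩ {p : E × E | P p.1 = P p.2} := by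
      ext p; simp only [hC, mem_ofPred_eq, mem_inter_iff, mem_prod]; tauto
    rw [this]; exact h1.inter_right h2
  set W : Set (E × E) := ⋃ x ∈ closedBall (0 : E) 1, (U x) ×ˢ (U x) with hW
  have hWo : IsOpen W := isOpen_biUnion fun x hx => (hUo x hx).prod (hUo x hx)
  set N : Set (E × E) := C \ W with hN
  have hNc : IsCompact N := hCc.diff hWo
  have hNne : ∀ p, p ∈ N ↔ p.1 ∈ closedBall (0 : E) 1 ∧ p.2 ∈ closedBall (0 : E) 1 ∧
      P p.1 = P p.2 ∧ p.1 ≠ p.2 := by
    intro p
    constructor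
    · rintro ⟨⟨h1, h2, h3⟩, h4⟩
      refine ⟨h1, h2, h3, fun h => h4 ?_⟩
      simp only [hW, mem_iUnion, mem_prod, exists_prop]
      exact ⟨p.1, h1, hUx _ h1, h ▸ hUx _ h1⟩
    · rintro ⟨h1, h2, h3, h4⟩
      refine ⟨⟨h1, h2, h3⟩, fun h => h4 ?_⟩
      simp only [hW, mem_iUnion, mem_prod, exists_prop] at h
      obtain ⟨x, hx, ha, hb⟩ := h
      exact hUi x hx ha hb h3
  set V : Set E := (fun p : E × E => P p.1) '' N with hV
  have hVc : IsCompact V := hNc.image (hc.comp continuous_fst)
  have hVo : IsOpen V := by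
    rw [isOpen_iff_mem_nhds]
    rintro v ⟨⟨x, y⟩, hp, rfl⟩
    obtain ⟨hx, hy, hxy, hne⟩ := (hNne _).1 hp
    simp only at hx hy hxy hne ⊢
    -- x and y are interior
    have hcase : ∀ z ∈ closedBall (0 : E) 1, z ∈ ball (0 : E) 1 ∨ z ∈ sphere (0 : E) 1 := by
      intro z hz
      rcases lt_or_eq_of_le (mem_closedBall.1 hz) with h | h
      · exact Or.inl h
      · exact Or.inr h
    have hxi : x ∈ ball (0 : E) 1 ∧ y ∈ ball (0 : E) 1 := by
      rcases hcase x hx with h1 | h1 <;> rcases hcase y hy with h2 | h2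
      · exact ⟨h1, h2⟩
      · exfalso
        have a := mem_ball.1 (hB h1)
        have b := mem_sphere.1 (hS' h2)
        rw [hxy] at a; linarith
      · exfalso
        have a := mem_sphere.1 (hS' h1)
        have b := mem_ball.1 (hB h2)
        rw [hxy] at a; linarith
      · exact absurd (hS h1 h2 hxy) hne
    obtain ⟨A, hA⟩ := hder x hx
    obtain ⟨A', hA'⟩ := hder y hy
    obtain ⟨O1, O2, hO1, hO2, hx1, hy2, hdis⟩ := t2_separation hne
    have m1 : P '' (O1 ∩ ball (0 : E) 1) ∈ 𝓝 (P x) := by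
      rw [← hA.map_nhds_eq_of_equiv]
      exact image_mem_map (inter_mem (hO1.mem_nhds hx1) (isOpen_ball.mem_nhds hxi.1))
    have m2 : P '' (O2 ∩ ball (0 : E) 1) ∈ 𝓝 (P x) := by
      rw [hxy, ← hA'.map_nhds_eq_of_equiv]
      exact image_mem_map (inter_mem (hO2.mem_nhds hy2) (isOpen_ball.mem_nhds hxi.2))
    filter_upwards [m1, m2]
    rintro v ⟨x', ⟨hx'1, hx'2⟩, rfl⟩ ⟨y', ⟨hy'1, hy'2⟩, hy'3⟩
    refine ⟨(x', y'), (hNne _).2 ⟨ball_subset_closedBall hx'2, ball_subset_closedBall hy'2,
      hy'3.symm, ?_⟩, rfl⟩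
    intro h
    simp only at h
    exact Set.disjoint_left.1 hdis hx'1 (h ▸ hy'1)
  have hVe : V = ∅ := by
    rcases isClopen_iff.1 ⟨hVc.isClosed, hVo⟩ with h | h
    · exact h
    · exfalso
      have hb : Bornology.IsBounded (univ : Set E) := h ▸ hVc.isBounded
      exact NormedSpace.unbounded_univ ℝ E hb
  intro x hx y hy hxy
  by_contra hne
  have : P x ∈ V := ⟨(x, y), (hNne _).2 ⟨hx, hy, hxy, hne⟩, rfl⟩
  rw [hVe] at this
  exact this

/-- Under the same kind of hypotheses the image of the closed ball is the closed ball. -/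
theorem image_of_local {E : Type*} [NormedAddCommGroup E] [NormedSpace ℝ E]
    [FiniteDimensional ℝ E] [Nontrivial E]
    {P : E → E} (hc : Continuous P)
    (hder : ∀ x ∈ closedBall (0 : E) 1, ∃ A : E ≃L[ℝ] E, HasStrictFDerivAt P (A : E →L[ℝ] E) x)
    (hS' : P '' (sphere (0 : E) 1) = sphere (0 : E) 1)
    (hB : MapsTo P (ball (0 : E) 1) (ball (0 : E) 1)) :
    P '' (closedBall (0 : E) 1) = closedBall (0 : E) 1 := by
  have hIc : IsCompact (P '' (closedBall (0 : E) 1)) := (isCompact_closedBall 0 1).image hc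
  have hcb : closedBall (0 : E) 1 = ball 0 1 ∪ sphere 0 1 := by
    rw [ball_union_sphere]
  have hbi : P '' (ball (0 : E) 1) = ball (0 : E) 1 := by
    have hop : IsOpen (P '' (ball (0 : E) 1)) := by
      rw [isOpen_iff_mem_nhds]
      rintro v ⟨x, hx, rfl⟩
      obtain ⟨A, hA⟩ := hder x (ball_subset_closedBall hx)
      rw [← hA.map_nhds_eq_of_equiv]
      exact image_mem_map (isOpen_ball.mem_nhds hx)
    have hpre : IsPreconnected (ball (0 : E) 1) := (convex_ball (0 : E) 1).isPreconnected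
    apply Subset.antisymm (image_subset_iff.2 hB)
    have hVo : IsOpen (P '' (closedBall (0 : E) 1))ᶜ := hIc.isClosed.isOpen_compl
    by_contra hcon
    rw [not_subset] at hcon
    obtain ⟨y, hy, hyn⟩ := hcon
    have hy2 : y ∈ (P '' (closedBall (0 : E) 1))ᶜ := by
      rintro ⟨x, hx, rfl⟩
      rw [hcb] at hx
      rcases hx with hx | hx
      · exact hyn ⟨x, hx, rfl⟩
      · have : P x ∈ sphere (0 : E) 1 := hS' ▸ mem_image_of_mem P hx
        have a := mem_sphere.1 this
        have b := mem_ball.1 hy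
        linarith
    obtain ⟨z, hz, hz1, hz2⟩ := hpre (P '' (ball (0 : E) 1)) (P '' (closedBall (0 : E) 1))ᶜ hop hVo
      (by
        intro v hv
        by_cases h : v ∈ P '' (closedBall (0 : E) 1)
        · left
          obtain ⟨x, hx, rfl⟩ := h
          rw [hcb] at hx
          rcases hx with hx | hx
          · exact ⟨x, hx, rfl⟩
          · exfalso
            have : P x ∈ sphere (0 : E) 1 := hS' ▸ mem_image_of_mem P hx
            have a := mem_sphere.1 this
            have b := mem_ball.1 hv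
            linarith
        · right; exact h)
      ⟨P 0, hB (mem_ball_self one_pos), ⟨0, mem_ball_self one_pos, rfl⟩⟩
      ⟨y, hy, hy2⟩
    exact hz2 (image_mono ball_subset_closedBall hz1)
  rw [hcb, image_union, hbi, hS']

end Pool.Agent.SFill
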