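import Pool.Agent.SFill.Defs

open Metric Set Filter Topology
open scoped InnerProductSpace

namespace Pool.Agent.SFill

/-- the symplectic form as the imaginary part of the Hermitian product -/
noncomputable def om {n : ℕ} (u v : Cn n) : ℝ := (inner ℂ u v).im

variable {n : ℕ}

theorem om_add_left (u u' v : Cn n) : om (u + u') v = om u v + om u' v := by
  simp only [om]
  rw [inner_add_left, Complex.add_im]

theorem om_add_right (u v v' : Cn n) : om u (v + v') = om u v + om u v' := by
  simp only [om]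
  rw [inner_add_right, Complex.add_im]

theorem om_smul_left (c : ℝ) (u v : Cn n) : om (c • u) v = c * om u v := by
  simp only [om]
  rw [RCLike.real_smul_eq_coe_smul (K := ℂ) c u, inner_smul_left]
  simp

theorem om_self (u : Cn n) : om u u = 0 := by
  simp only [om]
  rw [inner_self_eq_norm_sq_to_K]
  norm_cast

theorem om_swap (u v : Cn n) : om u v = - om v u := by
  have h := om_self (u + v)
  rw [om_add_left, om_add_right, om_add_right, om_self, om_self] at h
  linarith

theorem om_nondeg {u : Cn n} (h : ∀ v, om u v = 0) : u = 0 := by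
  have h1 := h (Complex.I • u)
  simp only [om] at h1
  rw [inner_smul_right, inner_self_eq_norm_sq_to_K] at h1
  have h2 : ‖u‖ ^ 2 = 0 := by
    have h3 : (Complex.I * ((‖u‖ ^ 2 : ℝ) : ℂ)).im = ‖u‖ ^ 2 := by
      rw [Complex.I_mul_im, Complex.ofReal_re]
    rw [← h3, ← h1]
    congr 2
    push_cast
    rfl
  exact norm_eq_zero.1 ((pow_eq_zero_iff two_ne_zero).1 h2)

/-- Riesz vector for the symplectic form -/
noncomputable def rz (m : Cn n →L[ℝ] ℝ) : Cn n :=
  (-Complex.I) • ((InnerProductSpace.toDual ℝ (Cn n)).symm m)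

theorem om_rz (m : Cn n →L[ℝ] ℝ) (x : Cn n) : om (rz m) x = m x := by
  have h : m x = inner ℝ ((InnerProductSpace.toDual ℝ (Cn n)).symm m) x := by
    rw [InnerProductSpace.toDual_symm_apply]
  have h2 : inner ℝ ((InnerProductSpace.toDual ℝ (Cn n)).symm m) x =
    (inner ℂ ((InnerProductSpace.toDual ℝ (Cn n)).symm m) x).re := by
    rw [PiLp.inner_apply, PiLp.inner_apply, Complex.re_sum]
    refine Finset.sum_congr rfl fun i _ => ?_
    simp [Complex.inner]
  rw [h, h2]
  simp only [rz, om]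
  rw [inner_smul_left]
  simp

theorem continuous_rz : Continuous (rz (n := n)) := by
  unfold rz
  exact (InnerProductSpace.toDual ℝ (Cn n)).symm.continuous.const_smul (-Complex.I)

/-- the value `ω(a₁,a₂)` for the Riesz vectors of two real functionals -/
noncomputable def pb (m1 m2 : Cn n →L[ℝ] ℝ) : ℝ := m1 (rz m2)

theorem pb_nondeg {m1 m2 : Cn n →L[ℝ] ℝ} {c : ℝ} (hc : 1 + c * pb m1 m2 ≠ 0) {u : Cn n}
    (h : ∀ v, om u v + c * (m1 u * m2 v - m2 u * m1 v) = 0) : u = 0 := by
  have e1 := h (rz m1)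
  have e2 := h (rz m2)
  have a1 : om u (rz m1) = - m1 u := by rw [om_swap, om_rz]
  have a2 : om u (rz m2) = - m2 u := by rw [om_swap, om_rz]
  have a3 : m1 (rz m1) = 0 := by rw [← om_rz m1 (rz m1)]; exact om_self _
  have a4 : m2 (rz m2) = 0 := by rw [← om_rz m2 (rz m2)]; exact om_self _
  have a5 : m2 (rz m1) = - pb m1 m2 := by
    rw [← om_rz m2 (rz m1), om_swap, om_rz]; rfl
  have a6 : m1 (rz m2) = pb m1 m2 := rfl
  rw [a1, a3, a5] at e1
  rw [a2, a4, a6] at e2
  have b1 : m1 u = 0 := by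
    have : (1 + c * pb m1 m2) * m1 u = 0 := by linarith
    exact (mul_eq_zero.1 this).resolve_left hc
  have b2 : m2 u = 0 := by
    have : (1 + c * pb m1 m2) * m2 u = 0 := by linarith
    exact (mul_eq_zero.1 this).resolve_left hc
  apply om_nondeg
  intro v
  have := h v
  rw [b1, b2] at this
  linarith

theorem pb_deg {m1 m2 : Cn n →L[ℝ] ℝ} (hc : 1 + pb m1 m2 = 0) :
    ∃ u : Cn n, u ≠ 0 ∧ ∀ v, om u v + (m1 u * m2 v - m2 u * m1 v) = 0 := by
  refine ⟨rz m1, ?_, ?_⟩
  · intro h0
    have a5 : m2 (rz m1) = - pb m1 m2 := by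
      rw [← om_rz m2 (rz m1), om_swap, om_rz]; rfl
    rw [h0, map_zero] at a5
    linarith
  · intro v
    have a3 : m1 (rz m1) = 0 := by rw [← om_rz m1 (rz m1)]; exact om_self _
    have a5 : m2 (rz m1) = - pb m1 m2 := by
      rw [← om_rz m2 (rz m1), om_swap, om_rz]; rfl
    rw [om_rz, a3, a5]
    have : pb m1 m2 = -1 := by linarith
    rw [this]; ring

theorem pb_zero_of_rank_one (m : Cn n →L[ℝ] ℝ) (c1 c2 : ℝ) : pb (c1 • m) (c2 • m) = 0 := by
  have h : rz (c2 • m) = c2 • rz m := by
    apply sub_eq_zero.1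
    apply om_nondeg
    intro v
    have : om (rz (c2 • m) - c2 • rz m) v = om (rz (c2 • m)) v + (-c2) * om (rz m) v := by
      rw [← om_smul_left, ← om_add_left]
      congr 1
      rw [neg_smul, sub_eq_add_neg]
    rw [this, om_rz, om_rz]
    simp
  unfold pb
  rw [h]
  have a3 : m (rz m) = 0 := by rw [← om_rz m (rz m)]; exact om_self _
  simp [a3]

theorem continuous_pb : Continuous fun p : (Cn n →L[ℝ] ℝ) × (Cn n →L[ℝ] ℝ) => pb p.1 p.2 := by
  unfold pb
  exact continuous_fst.clm_apply (continuous_rz.comp continuous_snd)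

end Pool.Agent.SFill
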