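import Pool.Agent.SFill.Deg
import Pool.Agent.SFill.Lin
import Pool.Agent.SFill.Defs

open Metric Set
open scoped ContDiff

namespace Pool.Agent.SFill

/-- the same notion, written out -/
structure Fills' {n : ℕ} (F : EuclideanSpace ℂ (Fin n) → Amb n) : Prop where
  smooth : ContDiff ℝ ∞ F
  inj : InjOn F (closedBall 0 1)
  immersion : ∀ x ∈ closedBall 0 1, ∀ u, fderiv ℝ F x u = 0 → u = 0
  boundary : F '' sphere 0 1 = K n
  interior : ∀ x ∈ ball 0 1, sqn (F x) < 1
  transversal : ∀ x ∈ sphere 0 1, ∃ u, (herm (F x) (fderiv ℝ F x u)).re ≠ 0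
  symplectic : ∀ x ∈ closedBall 0 1, ∀ u, u ≠ 0 →
    ∃ v, omega (fderiv ℝ F x u) (fderiv ℝ F x v) ≠ 0

theorem fills_iff {n : ℕ} {F : Cn n → Amb n} : Fills F ↔ Fills' F := by
  constructor
  · rintro ⟨⟨h1, h2, h3⟩, ⟨h4, h5⟩, h6, h7⟩
    refine ⟨h1, h2, h3, h4, ?_, h6, h7⟩
    intro x hx
    refine h5 x (ball_subset_closedBall hx) fun h => ?_
    have a := mem_sphere.1 h
    have b := mem_ball.1 hx
    linarith
  · intro h
    refine ⟨⟨h.smooth, h.inj, h.immersion⟩, ⟨h.boundary, ?_⟩, h.transversal, h.symplectic⟩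
    intro x hx hx2
    refine h.interior x ?_
    rcases lt_or_eq_of_le (mem_closedBall.1 hx) with h1 | h1
    · exact h1
    · exact absurd h1 hx2

variable {n : ℕ}

theorem omega_eq (p q : Amb n) :
    omega p q = om p.1 q.1 + (p.2.re * q.2.im - p.2.im * q.2.re) := by
  simp only [omega, herm, om, Complex.add_im, Complex.mul_im, Complex.conj_re, Complex.conj_im]
  ring

/-- the family of maps -/
noncomputable def fam (F : EuclideanSpace ℂ (Fin n) → Amb n) (s : ℝ)
    (x : EuclideanSpace ℂ (Fin n)) : Amb n := ((F x).1, (s : ℂ) * (F x).2)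

theorem hasFDerivAt_fam {F : EuclideanSpace ℂ (Fin n) → Amb n} (hF : ContDiff ℝ ∞ F) (s : ℝ)
    (x : EuclideanSpace ℂ (Fin n)) :
    ∃ L : EuclideanSpace ℂ (Fin n) →L[ℝ] Amb n, HasFDerivAt (fam F s) L x ∧
      ∀ u, L u = ((fderiv ℝ F x u).1, (s : ℂ) * (fderiv ℝ F x u).2) := by
  have h : HasFDerivAt F (fderiv ℝ F x) x :=
    (hF.differentiable (by simp)).differentiableAt.hasFDerivAt
  have h1 := h.fst
  have h2 := h.snd
  have h3 := h2.const_mul (s : ℂ)
  refine ⟨_, h1.prodMk h3, fun u => ?_⟩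
  simp

theorem fderiv_fam {F : EuclideanSpace ℂ (Fin n) → Amb n} (hF : ContDiff ℝ ∞ F) (s : ℝ)
    (x u : EuclideanSpace ℂ (Fin n)) :
    fderiv ℝ (fam F s) x u = ((fderiv ℝ F x u).1, (s : ℂ) * (fderiv ℝ F x u).2) := by
  obtain ⟨L, hL, hu⟩ := hasFDerivAt_fam hF s x
  rw [hL.fderiv, hu]

theorem exists_equiv {T : EuclideanSpace ℂ (Fin n) →L[ℝ] EuclideanSpace ℂ (Fin n)}
    (h : ∀ u, T u = 0 → u = 0) :
    ∃ e : EuclideanSpace ℂ (Fin n) ≃L[ℝ] EuclideanSpace ℂ (Fin n),
      (e : EuclideanSpace ℂ (Fin n) →L[ℝ] EuclideanSpace ℂ (Fin n)) = T := by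
  have hi : Function.Injective (T : EuclideanSpace ℂ (Fin n) →ₗ[ℝ] EuclideanSpace ℂ (Fin n)) := by
    rw [injective_iff_map_eq_zero]; exact h
  refine ⟨(LinearEquiv.ofInjectiveEndo _ hi).toContinuousLinearEquiv, ?_⟩
  ext1 x
  rfl

/-- first component of the derivative -/
noncomputable def dA (F : EuclideanSpace ℂ (Fin n) → Amb n) (x : EuclideanSpace ℂ (Fin n)) :
    EuclideanSpace ℂ (Fin n) →L[ℝ] EuclideanSpace ℂ (Fin n) :=
  (ContinuousLinearMap.fst ℝ (EuclideanSpace ℂ (Fin n)) ℂ).comp (fderiv ℝ F x)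

/-- last component of the derivative -/
noncomputable def dl (F : EuclideanSpace ℂ (Fin n) → Amb n) (x : EuclideanSpace ℂ (Fin n)) :
    EuclideanSpace ℂ (Fin n) →L[ℝ] ℂ :=
  (ContinuousLinearMap.snd ℝ (EuclideanSpace ℂ (Fin n)) ℂ).comp (fderiv ℝ F x)

/-- real part of the last component in the coordinates of the first ones -/
noncomputable def m1 (F : EuclideanSpace ℂ (Fin n) → Amb n) (x : EuclideanSpace ℂ (Fin n)) :
    EuclideanSpace ℂ (Fin n) →L[ℝ] ℝ :=
  (Complex.reCLM.comp (dl F x)).comp (Ring.inverse (dA F x))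

/-- imaginary part -/
noncomputable def m2 (F : EuclideanSpace ℂ (Fin n) → Amb n) (x : EuclideanSpace ℂ (Fin n)) :
    EuclideanSpace ℂ (Fin n) →L[ℝ] ℝ :=
  (Complex.imCLM.comp (dl F x)).comp (Ring.inverse (dA F x))

theorem inv_left {F : EuclideanSpace ℂ (Fin n) → Amb n} {x : EuclideanSpace ℂ (Fin n)}
    (h : ∀ u, dA F x u = 0 → u = 0) (u : EuclideanSpace ℂ (Fin n)) :
    Ring.inverse (dA F x) (dA F x u) = u := by
  obtain ⟨e, he⟩ := exists_equiv h
  have hu : IsUnit (dA F x) := ⟨ContinuousLinearEquiv.toUnit e, he⟩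
  have := Ring.inverse_mul_cancel _ hu
  have := congrArg (fun T : EuclideanSpace ℂ (Fin n) →L[ℝ] EuclideanSpace ℂ (Fin n) => T u) this
  simpa using this

theorem inv_right {F : EuclideanSpace ℂ (Fin n) → Amb n} {x : EuclideanSpace ℂ (Fin n)}
    (h : ∀ u, dA F x u = 0 → u = 0) (u : EuclideanSpace ℂ (Fin n)) :
    dA F x (Ring.inverse (dA F x) u) = u := by
  obtain ⟨e, he⟩ := exists_equiv h
  have hu : IsUnit (dA F x) := ⟨ContinuousLinearEquiv.toUnit e, he⟩
  have := Ring.mul_inverse_cancel _ hu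
  have := congrArg (fun T : EuclideanSpace ℂ (Fin n) →L[ℝ] EuclideanSpace ℂ (Fin n) => T u) this
  simpa using this

theorem omega_fderiv {F : EuclideanSpace ℂ (Fin n) → Amb n} {x : EuclideanSpace ℂ (Fin n)}
    (h : ∀ u, dA F x u = 0 → u = 0) (s : ℝ) (u v : EuclideanSpace ℂ (Fin n)) :
    omega (n := n) ((fderiv ℝ F x u).1, (s : ℂ) * (fderiv ℝ F x u).2)
        ((fderiv ℝ F x v).1, (s : ℂ) * (fderiv ℝ F x v).2) =
      om (dA F x u) (dA F x v) + s ^ 2 * (m1 F x (dA F x u) * m2 F x (dA F x v) -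
        m2 F x (dA F x u) * m1 F x (dA F x v)) := by
  have e1 : ∀ u, m1 F x (dA F x u) = (fderiv ℝ F x u).2.re := by
    intro u
    simp only [m1, ContinuousLinearMap.comp_apply, inv_left h, dl]
    rfl
  have e2 : ∀ u, m2 F x (dA F x u) = (fderiv ℝ F x u).2.im := by
    intro u
    simp only [m2, ContinuousLinearMap.comp_apply, inv_left h, dl]
    rfl
  rw [omega_eq, e1, e1, e2, e2]
  simp only [Complex.mul_re, Complex.mul_im, Complex.ofReal_re, Complex.ofReal_im]
  have : om (fderiv ℝ F x u).1 (fderiv ℝ F x v).1 = om (dA F x u) (dA F x v) := rfl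
  rw [this]
  ring

theorem pb_continuousOn {F : EuclideanSpace ℂ (Fin n) → Amb n} (hF : ContDiff ℝ ∞ F)
    (h : ∀ x ∈ closedBall (0 : EuclideanSpace ℂ (Fin n)) 1, ∀ u, dA F x u = 0 → u = 0) :
    ContinuousOn (fun x => pb (m1 F x) (m2 F x)) (closedBall 0 1) := by
  have hc : Continuous (fderiv ℝ F) := hF.continuous_fderiv (by simp)
  have hA : Continuous (dA F) := by
    unfold dA
    exact continuous_const.clm_comp hc
  have hl : Continuous (dl F) := by
    unfold dl
    exact continuous_const.clm_comp hc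
  have hB : ContinuousOn (fun x => Ring.inverse (dA F x)) (closedBall 0 1) := by
    intro x hx
    obtain ⟨e, he⟩ := exists_equiv (h x hx)
    have h1 : ContinuousAt Ring.inverse
        ((ContinuousLinearEquiv.toUnit e : (EuclideanSpace ℂ (Fin n) →L[ℝ]
          EuclideanSpace ℂ (Fin n))ˣ) : EuclideanSpace ℂ (Fin n) →L[ℝ]
          EuclideanSpace ℂ (Fin n)) := NormedRing.inverse_continuousAt _
    have h2 : ((ContinuousLinearEquiv.toUnit e : (EuclideanSpace ℂ (Fin n) →L[ℝ]
          EuclideanSpace ℂ (Fin n))ˣ) : EuclideanSpace ℂ (Fin n) →L[ℝ]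
          EuclideanSpace ℂ (Fin n)) = dA F x := he
    rw [h2] at h1
    exact (ContinuousAt.comp (f := dA F) h1 hA.continuousAt).continuousWithinAt
  have h1 : ContinuousOn (m1 F) (closedBall 0 1) := by
    unfold m1
    exact (continuousOn_const.clm_comp hl.continuousOn).clm_comp hB
  have h2 : ContinuousOn (m2 F) (closedBall 0 1) := by
    unfold m2
    exact (continuousOn_const.clm_comp hl.continuousOn).clm_comp hB
  exact continuous_pb.comp_continuousOn (h1.prodMk h2)

theorem dl_tangent {F : EuclideanSpace ℂ (Fin n) → Amb n} (hF : Fills' F)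
    {x : EuclideanSpace ℂ (Fin n)} (hx : x ∈ sphere (0 : EuclideanSpace ℂ (Fin n)) 1)
    {u : EuclideanSpace ℂ (Fin n)} (hu : inner ℝ x u = 0) : dl F x u = 0 := by
  by_cases h0 : u = 0
  · rw [h0, map_zero]
  have hxn : ‖x‖ = 1 := by simpa using hx
  have hun : ‖u‖ ≠ 0 := norm_ne_zero_iff.2 h0
  set u1 : EuclideanSpace ℂ (Fin n) := ‖u‖⁻¹ • u with hu1
  have hu1n : ‖u1‖ = 1 := by
    rw [hu1, norm_smul, norm_inv, norm_norm]; exact inv_mul_cancel₀ hun
  have hu1i : inner ℝ x u1 = 0 := by rw [hu1, inner_smul_right, hu, mul_zero]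
  set c : ℝ → EuclideanSpace ℂ (Fin n) := fun t => Real.cos t • x + Real.sin t • u1 with hc
  have hcs : ∀ t, c t ∈ sphere (0 : EuclideanSpace ℂ (Fin n)) 1 := by
    intro t
    rw [mem_sphere_zero_iff_norm]
    have : ‖c t‖ ^ 2 = 1 := by
      rw [hc]
      simp only
      rw [norm_add_sq_real, inner_smul_left, inner_smul_right, hu1i, norm_smul, norm_smul, hxn,
        hu1n]
      simp
    have h2 : (‖c t‖ - 1) * (‖c t‖ + 1) = 0 := by linarith
    rcases mul_eq_zero.1 h2 with h3 | h3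
    · linarith
    · have := norm_nonneg (c t); linarith
  have hcd : HasDerivAt c u1 0 := by
    have h1 := (Real.hasDerivAt_cos 0).smul_const x
    have h2 := (Real.hasDerivAt_sin 0).smul_const u1
    have h3 : HasDerivAt c ((-Real.sin 0) • x + Real.cos 0 • u1) 0 := h1.add h2
    simpa using h3
  have hc0 : c 0 = x := by simp [hc]
  have hFd : HasFDerivAt F (fderiv ℝ F (c 0)) (c 0) :=
    (hF.smooth.differentiable (by simp)).differentiableAt.hasFDerivAt
  have hcomp : HasDerivAt (F ∘ c) (fderiv ℝ F (c 0) u1) 0 := hFd.comp_hasDerivAt 0 hcd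
  have hw : HasDerivAt (fun t => (F (c t)).2) (fderiv ℝ F (c 0) u1).2 0 := hcomp.snd
  have hz : (fun t => (F (c t)).2) = fun _ => (0 : ℂ) := by
    funext t
    have : F (c t) ∈ K n := hF.boundary ▸ mem_image_of_mem F (hcs t)
    exact this.2
  rw [hz] at hw
  have h5 := hw.unique (hasDerivAt_const (0 : ℝ) (0 : ℂ))
  rw [hc0] at h5
  have h6 : dl F x u1 = 0 := h5
  have h7 : u = ‖u‖ • u1 := by
    rw [hu1, smul_smul, mul_inv_cancel₀ hun, one_smul]
  rw [h7, map_smul, h6, smul_zero]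

theorem pb_boundary {F : EuclideanSpace ℂ (Fin n) → Amb n} (hF : Fills' F)
    {x : EuclideanSpace ℂ (Fin n)} (hx : x ∈ sphere (0 : EuclideanSpace ℂ (Fin n)) 1) :
    pb (m1 F x) (m2 F x) = 0 := by
  have hxn : ‖x‖ = 1 := by simpa using hx
  have key : ∀ u, dl F x u = (inner ℝ x u : ℝ) • dl F x x := by
    intro u
    have h1 : dl F x (u - (inner ℝ x u : ℝ) • x) = 0 := by
      apply dl_tangent hF hx
      rw [inner_sub_right, inner_smul_right, real_inner_self_eq_norm_sq, hxn]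
      ring
    rw [map_sub, map_smul] at h1
    exact sub_eq_zero.1 h1
  set m : EuclideanSpace ℂ (Fin n) →L[ℝ] ℝ :=
    (innerSL ℝ x).comp (Ring.inverse (dA F x)) with hm
  have h1 : m1 F x = (dl F x x).re • m := by
    ext1 u
    simp only [m1, ContinuousLinearMap.comp_apply, smul_apply]
    rw [key]
    simp only [hm, ContinuousLinearMap.comp_apply, innerSL_apply_apply, map_smul, smul_eq_mul,
      Complex.reCLM_apply]
    ring
  have h2 : m2 F x = (dl F x x).im • m := by
    ext1 u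
    simp only [m2, ContinuousLinearMap.comp_apply, smul_apply]
    rw [key]
    simp only [hm, ContinuousLinearMap.comp_apply, innerSL_apply_apply, map_smul, smul_eq_mul,
      Complex.imCLM_apply]
    ring
  rw [h1, h2]
  exact pb_zero_of_rank_one _ _ _

theorem pb_gt {F : EuclideanSpace ℂ (Fin n) → Amb n} (hn : 1 ≤ n) (hF : Fills' F)
    (h : ∀ x ∈ closedBall (0 : EuclideanSpace ℂ (Fin n)) 1, ∀ u, dA F x u = 0 → u = 0) :
    ∀ x ∈ closedBall (0 : EuclideanSpace ℂ (Fin n)) 1, -1 < pb (m1 F x) (m2 F x) := by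
  have : Nonempty (Fin n) := ⟨⟨0, hn⟩⟩
  have hne : ∀ x ∈ closedBall (0 : EuclideanSpace ℂ (Fin n)) 1, pb (m1 F x) (m2 F x) ≠ -1 := by
    intro x hx heq
    obtain ⟨u, hu0, hu⟩ := pb_deg (m1 := m1 F x) (m2 := m2 F x) (by rw [heq]; norm_num)
    set u' := Ring.inverse (dA F x) u with hu'
    have hAu : dA F x u' = u := inv_right (h x hx) u
    have hu'0 : u' ≠ 0 := by
      intro h0; rw [h0, map_zero] at hAu; exact hu0 hAu.symm
    obtain ⟨v, hv⟩ := hF.symplectic x hx u' hu'0
    apply hv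
    have := omega_fderiv (h x hx) 1 u' v
    simp only [Complex.ofReal_one, one_mul, one_pow] at this
    rw [this, hAu]
    exact hu _
  obtain ⟨x0, hx0⟩ := exists_norm_eq (EuclideanSpace ℂ (Fin n)) (zero_le_one : (0:ℝ) ≤ 1)
  have hx0s : x0 ∈ sphere (0 : EuclideanSpace ℂ (Fin n)) 1 := by simpa using hx0
  have hx0c : x0 ∈ closedBall (0 : EuclideanSpace ℂ (Fin n)) 1 := sphere_subset_closedBall hx0s
  have hpre : IsPreconnected (closedBall (0 : EuclideanSpace ℂ (Fin n)) 1) :=
    (convex_closedBall (0 : EuclideanSpace ℂ (Fin n)) 1).isPreconnected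
  intro x hx
  by_contra hcon
  rw [not_lt] at hcon
  have hiv := hpre.intermediate_value hx hx0c (pb_continuousOn hF.smooth h)
  have hmem : (-1 : ℝ) ∈ Icc (pb (m1 F x) (m2 F x)) (pb (m1 F x0) (m2 F x0)) := by
    refine ⟨hcon, ?_⟩
    rw [pb_boundary hF hx0s]; norm_num
  obtain ⟨y, hy, hy2⟩ := hiv hmem
  exact hne y hy hy2

/-- the linear family consists of fillings and ends at the disc -/
theorem strong (hn : 1 ≤ n) {F : EuclideanSpace ℂ (Fin n) → Amb n} (hF : Fills' F)
    (hT : ∀ x ∈ closedBall (0 : EuclideanSpace ℂ (Fin n)) 1, ∀ u,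
      (fderiv ℝ F x u).1 = 0 → u = 0) :
    (∀ s ∈ Icc (0 : ℝ) 1, Fills' (fam F s)) ∧ fam F 0 '' closedBall 0 1 = D0 n := by
  have : Nonempty (Fin n) := ⟨⟨0, hn⟩⟩
  have h : ∀ x ∈ closedBall (0 : EuclideanSpace ℂ (Fin n)) 1, ∀ u, dA F x u = 0 → u = 0 := hT
  set P : EuclideanSpace ℂ (Fin n) → EuclideanSpace ℂ (Fin n) := fun x => (F x).1 with hP
  have hPs : ContDiff ℝ ∞ P := hF.smooth.fst
  have hPder : ∀ x ∈ closedBall (0 : EuclideanSpace ℂ (Fin n)) 1,
      ∃ A : EuclideanSpace ℂ (Fin n) ≃L[ℝ] EuclideanSpace ℂ (Fin n),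
        HasStrictFDerivAt P (A : EuclideanSpace ℂ (Fin n) →L[ℝ] EuclideanSpace ℂ (Fin n)) x := by
    intro x hx
    obtain ⟨e, he⟩ := exists_equiv (h x hx)
    refine ⟨e, ?_⟩
    have h1 : HasStrictFDerivAt F (fderiv ℝ F x) x :=
      hF.smooth.contDiffAt.hasStrictFDerivAt (by simp)
    have h2 := h1.fst
    rw [he]
    exact h2
  have hbd : ∀ x ∈ sphere (0 : EuclideanSpace ℂ (Fin n)) 1, (F x).2 = 0 ∧ ‖(F x).1‖ = 1 := by
    intro x hx
    have h1 : F x ∈ K n := hF.boundary ▸ mem_image_of_mem F hx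
    refine ⟨h1.2, ?_⟩
    have h2 : sqn (F x) = 1 := h1.1
    unfold sqn at h2
    rw [h1.2, norm_zero] at h2
    have h3 : (‖(F x).1‖ - 1) * (‖(F x).1‖ + 1) = 0 := by linarith
    rcases mul_eq_zero.1 h3 with h4 | h4
    · linarith
    · have := norm_nonneg (F x).1; linarith
  have hSm : MapsTo P (sphere (0 : EuclideanSpace ℂ (Fin n)) 1) (sphere 0 1) := by
    intro x hx
    rw [mem_sphere_zero_iff_norm]
    exact (hbd x hx).2
  have hSi : InjOn P (sphere (0 : EuclideanSpace ℂ (Fin n)) 1) := by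
    intro x hx y hy hxy
    apply hF.inj (sphere_subset_closedBall hx) (sphere_subset_closedBall hy)
    exact Prod.ext hxy ((hbd x hx).1.trans (hbd y hy).1.symm)
  have hBm : MapsTo P (ball (0 : EuclideanSpace ℂ (Fin n)) 1) (ball 0 1) := by
    intro x hx
    have h1 := hF.interior x hx
    unfold sqn at h1
    rw [mem_ball_zero_iff]
    have h2 : ‖(F x).1‖ ^ 2 < 1 := by nlinarith [sq_nonneg ‖(F x).2‖]
    exact (sq_lt_one_iff₀ (norm_nonneg _)).1 h2
  have hSi2 : P '' (sphere (0 : EuclideanSpace ℂ (Fin n)) 1) = sphere 0 1 := by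
    apply Subset.antisymm (image_subset_iff.2 hSm)
    intro z hz
    have hz1 : ‖z‖ = 1 := by simpa using hz
    have : ((z, 0) : Amb n) ∈ F '' sphere 0 1 := by
      rw [hF.boundary]
      exact ⟨by simp [sqn, hz1], rfl⟩
    obtain ⟨x, hx, hxz⟩ := this
    exact ⟨x, hx, by rw [hP]; simp [hxz]⟩
  have hPi := injOn_of_local hPs.continuous hPder hSi hSm hBm
  have hPim := image_of_local hPs.continuous hPder hSi2 hBm
  -- the family
  have hfam : ∀ s ∈ Icc (0 : ℝ) 1, Fills' (fam F s) := by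
    intro s hs
    have hfd := fderiv_fam hF.smooth s
    refine ⟨?_, ?_, ?_, ?_, ?_, ?_, ?_⟩
    · unfold fam
      exact hF.smooth.fst.prodMk (contDiff_const.mul hF.smooth.snd)
    · intro x hx y hy hxy
      have h1 : (fam F s x).1 = (fam F s y).1 := congrArg Prod.fst hxy
      exact hPi hx hy h1
    · intro x hx u hu
      rw [hfd] at hu
      exact hT x hx u (congrArg Prod.fst hu)
    · rw [← hF.boundary]
      apply image_congr
      intro x hx
      unfold fam
      rw [(hbd x hx).1, mul_zero]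
      exact Prod.ext rfl (hbd x hx).1.symm
    · intro x hx
      have h1 := hF.interior x hx
      unfold sqn at h1 ⊢
      unfold fam
      simp only [norm_mul, Complex.norm_real]
      have h2 : ‖s‖ ≤ 1 := by rw [Real.norm_eq_abs, abs_of_nonneg hs.1]; exact hs.2
      have h3 : (‖s‖ * ‖(F x).2‖) ^ 2 ≤ ‖(F x).2‖ ^ 2 := by
        apply pow_le_pow_left₀ (by positivity)
        exact mul_le_of_le_one_left (norm_nonneg _) h2
      linarith
    · intro x hx
      refine ⟨Ring.inverse (dA F x) (F x).1, ?_⟩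
      rw [hfd]
      have h1 : (fderiv ℝ F x (Ring.inverse (dA F x) (F x).1)).1 = (F x).1 :=
        inv_right (h x (sphere_subset_closedBall hx)) _
      unfold herm fam
      simp only [h1, (hbd x hx).1, mul_zero, map_zero, zero_mul, add_zero]
      rw [inner_self_eq_norm_sq_to_K, (hbd x hx).2]
      simp
    · intro x hx u hu
      by_contra hcon
      push Not at hcon
      have hpos := pb_gt hn hF h x hx
      have hs2 : s ^ 2 ≤ 1 := by nlinarith [hs.1, hs.2]
      have hs0 : 0 ≤ s ^ 2 := sq_nonneg s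
      have hne : 1 + s ^ 2 * pb (m1 F x) (m2 F x) ≠ 0 := by
        intro h0
        rcases le_or_gt 0 (pb (m1 F x) (m2 F x)) with h1 | h1
        · have := mul_nonneg hs0 h1; linarith
        · have : s ^ 2 * pb (m1 F x) (m2 F x) ≥ 1 * pb (m1 F x) (m2 F x) := by
            have := mul_le_mul_of_nonpos_right hs2 h1.le
            linarith
          linarith
      have h3 := pb_nondeg hne (u := dA F x u) (by
        intro v
        have h4 := omega_fderiv (h x hx) s u (Ring.inverse (dA F x) v)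
        rw [inv_right (h x hx)] at h4
        rw [← h4]
        have h5 := hcon (Ring.inverse (dA F x) v)
        rw [hfd, hfd] at h5
        exact h5)
      exact hu (h x hx u h3)
  refine ⟨hfam, ?_⟩
  · ext p
    constructor
    · rintro ⟨x, hx, rfl⟩
      have h1 : (F x).1 ∈ closedBall (0 : EuclideanSpace ℂ (Fin n)) 1 := by
        rw [← hPim]; exact mem_image_of_mem P hx
      have h2 : ‖(F x).1‖ ≤ 1 := by simpa using h1
      refine ⟨?_, by simp [fam]⟩
      simp only [sqn, fam, Complex.ofReal_zero, zero_mul, norm_zero]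
      nlinarith [norm_nonneg (F x).1]
    · rintro ⟨h1, h2⟩
      have h3 : p.1 ∈ closedBall (0 : EuclideanSpace ℂ (Fin n)) 1 := by
        rw [mem_closedBall_zero_iff]
        unfold sqn at h1
        rw [h2, norm_zero] at h1
        have : ‖p.1‖ ^ 2 ≤ 1 := by linarith
        exact (sq_le_one_iff₀ (norm_nonneg _)).1 this
      rw [← hPim] at h3
      obtain ⟨x, hx, hxp⟩ := h3
      refine ⟨x, hx, ?_⟩
      simp only [fam, Complex.ofReal_zero, zero_mul]
      exact Prod.ext hxp h2.symm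

theorem contDiff_fam {F : EuclideanSpace ℂ (Fin n) → Amb n} (hF : ContDiff ℝ ∞ F) :
    ContDiff ℝ ∞ (fun q : ℝ × EuclideanSpace ℂ (Fin n) => fam F (1 - q.1) q.2) := by
  unfold fam
  have h1 : ContDiff ℝ ∞ fun q : ℝ × EuclideanSpace ℂ (Fin n) => F q.2 :=
    hF.comp contDiff_snd
  have h2 : ContDiff ℝ ∞ fun q : ℝ × EuclideanSpace ℂ (Fin n) => (((1 - q.1 : ℝ)) : ℂ) :=
    Complex.ofRealCLM.contDiff.comp (contDiff_const.sub contDiff_fst)
  exact h1.fst.prodMk (h2.mul h1.snd)

/-- a filling transversal to the vertical direction is symplectically isotopic to the disc -/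
theorem main (hn : 1 ≤ n) {F : Cn n → Amb n} (hF : Fills F)
    (hT : ∀ x ∈ UB n, ∀ u, (tan F x u).1 = 0 → u = 0) :
    Isotopic (F '' UB n) (D0 n) := by
  obtain ⟨h1, h2⟩ := strong hn (fills_iff.1 hF) hT
  refine ⟨fun q => fam F (1 - q.1) q.2, contDiff_fam hF.embeds.1, ?_, ?_, ?_⟩
  · intro t ht
    exact fills_iff.2 (h1 (1 - t) ⟨by linarith [ht.2], by linarith [ht.1]⟩)
  · apply image_congr
    intro x _
    simp [fam]
  · rw [← h2]
    apply image_congr
    intro x _
    simp [fam]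

end Pool.Agent.SFill
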