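import Pool.Agent.SFill.Defs

namespace Pool.Agent.SFill

/-- Invariance under the torus which rotates the first `n` coordinates. -/
def TorusInvariant {n : ℕ} (S : Set (Amb n)) : Prop :=
  ∀ a : Fin n → ℂ, (∀ j, ‖a j‖ = 1) → ∀ p ∈ S, ∀ q : Amb n,
    (∀ j, q.1 j = a j * p.1 j) → q.2 = p.2 → q ∈ S

end Pool.Agent.SFill
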