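import Pool.Agent.SFill.Main
import Pool.Agent.SFill.TorDefs

open Metric Set Filter Topology
open scoped ContDiff

namespace Pool.Agent.SFill

variable {n : ℕ}

theorem lift_tendsto {F : Cn n → Amb n} (hF : Fills' F) {x : Cn n}
    (hx : x ∈ closedBall (0 : Cn n) 1) {α : Type*} {l : Filter α} {y : α → Cn n}
    (hy : ∀ᶠ a in l, y a ∈ closedBall (0 : Cn n) 1)
    (hl : Tendsto (fun a => F (y a)) l (𝓝 (F x))) : Tendsto y l (𝓝 x) := by
  apply (isCompact_closedBall (0 : Cn n) 1).tendsto_nhds_of_unique_mapClusterPt hy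
  intro z hz hcl
  have h1 : MapClusterPt (F z) l (fun a => F (y a)) :=
    MapClusterPt.continuousAt_comp hF.smooth.continuous.continuousAt hcl
  have h2 : F z = F x := by
    by_contra hne
    obtain ⟨U, V, hU, hV, hzU, hxV, hd⟩ := t2_separation hne
    have h3 := hl (hV.mem_nhds hxV)
    have h4 := (mapClusterPt_iff_frequently.1 h1) U (hU.mem_nhds hzU)
    obtain ⟨a, ha1, ha2⟩ := (h4.and_eventually h3).exists
    exact Set.disjoint_left.1 hd ha1 ha2
  exact hF.inj hz hx h2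

theorem antilip {F : Cn n → Amb n} (hF : Fills' F) {x : Cn n}
    (hx : x ∈ closedBall (0 : Cn n) 1) : ∃ c, AntilipschitzWith c (fderiv ℝ F x) := by
  have hk : LinearMap.ker (fderiv ℝ F x : Cn n →ₗ[ℝ] Amb n) = ⊥ := by
    rw [LinearMap.ker_eq_bot']
    exact fun u hu => hF.immersion x hx u hu
  obtain ⟨c, _, hc⟩ := (fderiv ℝ F x : Cn n →ₗ[ℝ] Amb n).exists_antilipschitzWith hk
  exact ⟨c, hc⟩

/-- tangent cone vectors are tangent vectors -/
theorem tangent_cone {F : Cn n → Amb n} (hF : Fills' F) {x : Cn n}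
    (hx : x ∈ closedBall (0 : Cn n) 1) {y : ℕ → Cn n} {t : ℕ → ℝ} {ξ : Amb n}
    (hy : ∀ m, y m ∈ closedBall (0 : Cn n) 1) (ht0 : ∀ m, t m ≠ 0) (ht : Tendsto t atTop (𝓝 0))
    (hl : Tendsto (fun m => (t m)⁻¹ • (F (y m) - F x)) atTop (𝓝 ξ)) :
    ∃ u, fderiv ℝ F x u = ξ := by
  have hFy : Tendsto (fun m => F (y m)) atTop (𝓝 (F x)) := by
    have h1 : Tendsto (fun m => t m • ((t m)⁻¹ • (F (y m) - F x))) atTop (𝓝 ((0 : ℝ) • ξ)) :=
      ht.smul hl
    rw [zero_smul] at h1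
    have h2 : (fun m => t m • ((t m)⁻¹ • (F (y m) - F x))) = fun m => F (y m) - F x := by
      funext m
      rw [smul_smul, mul_inv_cancel₀ (ht0 m), one_smul]
    rw [h2] at h1
    simpa using h1.add_const (F x)
  have hyx : Tendsto y atTop (𝓝 x) := lift_tendsto hF hx (Eventually.of_forall hy) hFy
  have hd : HasFDerivAt F (fderiv ℝ F x) x :=
    (hF.smooth.differentiable (by simp)).differentiableAt.hasFDerivAt
  obtain ⟨c, hc⟩ := antilip hF hx
  have ho : (fun m => F (y m) - F x - fderiv ℝ F x (y m - x)) =o[atTop] fun m => y m - x :=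
    hd.isLittleO.comp_tendsto hyx
  have hO : (fun m => y m - x) =O[atTop] fun m => F (y m) - F x := by
    have hc' : ∀ z, ‖z‖ ≤ c * ‖fderiv ℝ F x z‖ := fun z => by simpa using hc.le_mul_dist 0 z
    have A : (fun z ↦ z - x) =O[𝓝 x] fun z ↦ fderiv ℝ F x (z - x) :=
      Asymptotics.isBigO_iff.mpr ⟨c, Eventually.of_forall fun z ↦ hc' (z - x)⟩
    have B : Asymptotics.IsEquivalent (𝓝 x) (fun z ↦ F z - F x) fun z ↦ fderiv ℝ F x (z - x) :=
      hd.isLittleO.trans_isBigO A
    exact (A.trans B.isBigO_symm).comp_tendsto hyx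
  have hO2 : (fun m => F (y m) - F x) =O[atTop] t := by
    have h1 : (fun m => t m • ((t m)⁻¹ • (F (y m) - F x))) =O[atTop]
        fun m => t m • (1 : ℝ) :=
      (Asymptotics.isBigO_refl t atTop).smul (hl.isBigO_one ℝ)
    have h2 : (fun m => t m • ((t m)⁻¹ • (F (y m) - F x))) = fun m => F (y m) - F x := by
      funext m
      rw [smul_smul, mul_inv_cancel₀ (ht0 m), one_smul]
    rw [h2] at h1
    simpa using h1
  have ho2 : (fun m => F (y m) - F x - fderiv ℝ F x (y m - x)) =o[atTop] t :=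
    ho.trans_isBigO (hO.trans hO2)
  have ho3 : Tendsto (fun m => (t m)⁻¹ • (F (y m) - F x - fderiv ℝ F x (y m - x))) atTop
      (𝓝 0) := by
    rw [tendsto_zero_iff_norm_tendsto_zero]
    have h3 := (Asymptotics.isLittleO_iff_tendsto (f := fun m =>
      ‖F (y m) - F x - fderiv ℝ F x (y m - x)‖) (g := fun m => ‖t m‖) (l := atTop)
      (fun m hm => absurd (norm_eq_zero.1 hm) (ht0 m))).1 ho2.norm_norm
    refine h3.congr fun m => ?_
    rw [norm_smul, norm_inv, div_eq_inv_mul]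
  have h4 : Tendsto (fun m => fderiv ℝ F x ((t m)⁻¹ • (y m - x))) atTop (𝓝 ξ) := by
    have h5 := hl.sub ho3
    rw [sub_zero] at h5
    refine h5.congr fun m => ?_
    rw [map_smul, ← smul_sub]
    congr 1
    abel
  have hcl : IsClosed ((LinearMap.range (fderiv ℝ F x : Cn n →ₗ[ℝ] Amb n) : Submodule ℝ (Amb n)) :
      Set (Amb n)) := Submodule.closed_of_finiteDimensional _
  have h6 := hcl.mem_of_tendsto h4 (Eventually.of_forall fun m => ⟨_, rfl⟩)
  obtain ⟨u, hu⟩ := h6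
  exact ⟨u, hu⟩

end Pool.Agent.SFill
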