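import Pool.Agent.SFill.Tan

open Metric Set Filter Topology
open scoped ContDiff

namespace Pool.Agent.SFill

variable {n : ℕ}

/-- rotation of the first `n` coordinates -/
noncomputable def rotL (a : Fin n → ℂ) : Cn n →ₗ[ℝ] Cn n where
  toFun z := WithLp.toLp 2 fun j => a j * z j
  map_add' z w := by
    ext j
    simp [mul_add]
  map_smul' r z := by
    ext j
    simp only [PiLp.smul_apply, RingHom.id_apply, Complex.real_smul]
    ring

/-- rotation of the first `n` coordinates, on the ambient space -/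
noncomputable def rotA (a : Fin n → ℂ) : Amb n →L[ℝ] Amb n :=
  (LinearMap.toContinuousLinearMap (rotL a)).prodMap (ContinuousLinearMap.id ℝ ℂ)

@[simp] theorem rotA_fst (a : Fin n → ℂ) (p : Amb n) (j : Fin n) :
    (rotA a p).1 j = a j * p.1 j := rfl

@[simp] theorem rotA_snd (a : Fin n → ℂ) (p : Amb n) : (rotA a p).2 = p.2 := rfl

theorem lift_rot {F : Cn n → Amb n} (hT : TorusInvariant (F '' UB n)) {a : Fin n → ℂ}
    (ha : ∀ j, ‖a j‖ = 1) {x : Cn n} (hx : x ∈ closedBall (0 : Cn n) 1) :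
    ∃ y ∈ closedBall (0 : Cn n) 1, F y = rotA a (F x) := by
  obtain ⟨y, hy, hxy⟩ := hT a ha (F x) (mem_image_of_mem F hx) (rotA a (F x))
    (fun j => rfl) rfl
  exact ⟨y, hy, hxy⟩

/-- the rotation of one coordinate -/
noncomputable def one_rot (j : Fin n) (c : ℂ) : Fin n → ℂ := fun k => if k = j then c else 1

theorem one_rot_norm (j : Fin n) {c : ℂ} (hc : ‖c‖ = 1) (k : Fin n) : ‖one_rot j c k‖ = 1 := by
  unfold one_rot
  split_ifs
  · exact hc
  · simp

/-- the vector with one nonzero coordinate -/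
noncomputable def vec (j : Fin n) (c : ℂ) : Amb n := (EuclideanSpace.single j c, 0)

theorem norm_vec (j : Fin n) (c : ℂ) : ‖vec j c‖ = ‖c‖ := by
  unfold vec
  rw [Prod.norm_def]
  simp

theorem rot_sub (j : Fin n) (c : ℂ) (p : Amb n) :
    rotA (one_rot j c) p - p = vec j ((c - 1) * p.1 j) := by
  apply Prod.ext
  · ext k
    simp only [Prod.fst_sub, PiLp.sub_apply, rotA_fst, one_rot, vec, PiLp.single_apply]
    split_ifs with h
    · subst h; ring
    · ring
  · simp [vec]

/-- if a coordinate and its derivative vanish at a point of the filling, the coordinate vanishes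
nearby -/
theorem fix_near {F : Cn n → Amb n} (hF : Fills' F) (hT : TorusInvariant (F '' UB n))
    {x : Cn n} (hx : x ∈ closedBall (0 : Cn n) 1) {j : Fin n} (h0 : (F x).1 j = 0)
    (hd : ∀ u, (fderiv ℝ F x u).1 j = 0) :
    ∀ᶠ y in 𝓝[closedBall (0 : Cn n) 1] x, (F y).1 j = 0 := by
  classical
  have hc1 : ‖(-1 : ℂ)‖ = 1 := by simp
  have hex : ∀ y : Cn n, ∃ y' : Cn n, y ∈ closedBall (0 : Cn n) 1 →
      y' ∈ closedBall (0 : Cn n) 1 ∧ F y' = rotA (one_rot j (-1)) (F y) := by
    intro y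
    by_cases hy : y ∈ closedBall (0 : Cn n) 1
    · obtain ⟨y', h1, h2⟩ := lift_rot hT (one_rot_norm j hc1) hy
      exact ⟨y', fun _ => ⟨h1, h2⟩⟩
    · exact ⟨0, fun h => absurd h hy⟩
  choose g hg using hex
  have hR : rotA (one_rot j (-1)) (F x) = F x := by
    have := rot_sub j (-1) (F x)
    rw [h0, mul_zero] at this
    rw [sub_eq_iff_eq_add] at this
    rw [this]
    have hv : vec j (0 : ℂ) = (0 : Amb n) := by
      unfold vec; ext <;> simp
    rw [hv, zero_add]
  have hmem : ∀ᶠ y in 𝓝[closedBall (0 : Cn n) 1] x, y ∈ closedBall (0 : Cn n) 1 :=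
    eventually_mem_nhdsWithin
  have hgt : Tendsto g (𝓝[closedBall (0 : Cn n) 1] x) (𝓝 x) := by
    apply lift_tendsto hF hx (hmem.mono fun y hy => (hg y hy).1)
    have h1 : Tendsto (fun y => rotA (one_rot j (-1)) (F y)) (𝓝[closedBall (0 : Cn n) 1] x)
        (𝓝 (F x)) := by
      have h2 : Continuous fun y => rotA (one_rot j (-1)) (F y) :=
        (rotA (one_rot j (-1))).continuous.comp hF.smooth.continuous
      have h3 : Tendsto (fun y => rotA (one_rot j (-1)) (F y)) (𝓝 x)
          (𝓝 (rotA (one_rot j (-1)) (F x))) := h2.tendsto x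
      rw [hR] at h3
      exact h3.mono_left nhdsWithin_le_nhds
    exact h1.congr' (hmem.mono fun y hy => (hg y hy).2.symm)
  obtain ⟨c, hc⟩ := antilip hF hx
  have hc' : ∀ z, ‖z‖ ≤ c * ‖fderiv ℝ F x z‖ := fun z => by simpa using hc.le_mul_dist 0 z
  have hs : HasStrictFDerivAt F (fderiv ℝ F x) x :=
    hF.smooth.contDiffAt.hasStrictFDerivAt (by simp)
  -- small constant
  set ε : ℝ := 1 / (4 * (c + 1)) with hε
  have hcp : (0 : ℝ) ≤ c := c.2
  have hεp : 0 < ε := by positivity
  have hb := hs.isLittleO.def hεp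
  have hpair : Tendsto (fun y => (g y, y)) (𝓝[closedBall (0 : Cn n) 1] x) (𝓝 (x, x)) := by
    rw [nhds_prod_eq]
    exact hgt.prodMk (tendsto_id.mono_left nhdsWithin_le_nhds)
  have hb2 := hpair.eventually hb
  filter_upwards [hb2, hmem] with y hy hym
  have h1 : F (g y) - F y = vec j ((-1 - 1) * (F y).1 j) := by
    rw [(hg y hym).2]; exact rot_sub j (-1) (F y)
  -- the `j`-th coordinate of the difference is small
  have h2 : ‖F (g y) - F y‖ ≤ ε * ‖g y - y‖ := by
    have h3 : ‖(F (g y) - F y - fderiv ℝ F x (g y - y)).1 j‖ ≤ ε * ‖g y - y‖ := by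
      refine le_trans ?_ hy
      refine le_trans (PiLp.norm_apply_le _ j) ?_
      exact norm_fst_le _
    have h4 : (F (g y) - F y - fderiv ℝ F x (g y - y)).1 j = (-1 - 1) * (F y).1 j := by
      have h5 : (F (g y) - F y - fderiv ℝ F x (g y - y)).1 j =
          (F (g y) - F y).1 j - (fderiv ℝ F x (g y - y)).1 j := rfl
      rw [h5, hd, h1]
      simp [vec]
    rw [h4] at h3
    rw [h1, norm_vec]
    exact h3
  have h5 : g y = y := by
    by_contra hne
    have hpos : 0 < ‖g y - y‖ := norm_pos_iff.2 (sub_ne_zero.2 hne)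
    have h6 : ‖fderiv ℝ F x (g y - y)‖ ≤ 2 * ε * ‖g y - y‖ := by
      have h7 : fderiv ℝ F x (g y - y) =
          (F (g y) - F y) - (F (g y) - F y - fderiv ℝ F x (g y - y)) := by abel
      rw [h7]
      refine le_trans (norm_sub_le _ _) ?_
      have := hy
      linarith
    have h8 := hc' (g y - y)
    have h9 : ‖g y - y‖ ≤ c * (2 * ε * ‖g y - y‖) :=
      h8.trans (mul_le_mul_of_nonneg_left h6 hcp)
    have h10 : (c : ℝ) * (2 * ε) < 1 := by
      rw [hε]
      rw [show (c : ℝ) * (2 * (1 / (4 * (c + 1)))) = c / (2 * (c + 1)) by field_simp; ring]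
      rw [div_lt_one (by positivity)]
      linarith
    have h11 : c * (2 * ε * ‖g y - y‖) < ‖g y - y‖ := by
      calc c * (2 * ε * ‖g y - y‖) = (c * (2 * ε)) * ‖g y - y‖ := by ring
        _ < 1 * ‖g y - y‖ := mul_lt_mul_of_pos_right h10 hpos
        _ = _ := one_mul _
    linarith
  rw [h5, sub_self] at h1
  have h12 := congrArg (fun p : Amb n => p.1 j) h1
  simp only [vec, PiLp.single_apply, if_true] at h12
  have h13 : (0 : Amb n).1 j = 0 := rfl
  rw [h13] at h12
  have h14 : (-1 - 1 : ℂ) ≠ 0 := by norm_num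
  exact (mul_eq_zero.1 h12.symm).resolve_left h14

end Pool.Agent.SFill
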