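import Pool.Agent.SFill.Torus

open Metric Set Filter Topology
open scoped ContDiff

namespace Pool.Agent.SFill

variable {n : ℕ}

/-- the derivative of a coordinate which vanishes near a point of the closed ball is zero -/
theorem deriv_zero {F : Cn n → Amb n} (hF : Fills' F) {y : Cn n}
    (hy : y ∈ closedBall (0 : Cn n) 1) {j : Fin n}
    (h : ∀ᶠ z in 𝓝[closedBall (0 : Cn n) 1] y, (F z).1 j = 0) (u : Cn n) :
    (fderiv ℝ F y u).1 j = 0 := by
  have hd : HasFDerivAt F (fderiv ℝ F y) y :=
    (hF.smooth.differentiable (by simp)).differentiableAt.hasFDerivAt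
  set pr : Amb n →L[ℝ] ℂ :=
    ((EuclideanSpace.proj j : Cn n →L[ℂ] ℂ).restrictScalars ℝ).comp
      (ContinuousLinearMap.fst ℝ (Cn n) ℂ) with hpr
  have h1 : HasFDerivWithinAt (fun z => (F z).1 j) (pr.comp (fderiv ℝ F y))
      (closedBall (0 : Cn n) 1) y := (pr.hasFDerivAt.comp y hd).hasFDerivWithinAt
  have h2 : HasFDerivWithinAt (fun z => (F z).1 j) (0 : Cn n →L[ℝ] ℂ)
      (closedBall (0 : Cn n) 1) y := by
    have h3 : HasFDerivWithinAt (fun _ : Cn n => (0 : ℂ)) (0 : Cn n →L[ℝ] ℂ)
        (closedBall (0 : Cn n) 1) y := hasFDerivWithinAt_const _ _ _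
    exact h3.congr_of_eventuallyEq h (h.self_of_nhdsWithin hy)
  have hun : UniqueDiffWithinAt ℝ (closedBall (0 : Cn n) 1) y := by
    apply uniqueDiffWithinAt_convex (convex_closedBall (0 : Cn n) 1)
    · rw [interior_closedBall _ one_ne_zero]
      exact ⟨0, by simp⟩
    · exact subset_closure hy
  have h4 := hun.eq h1 h2
  exact congrArg (fun L : Cn n →L[ℝ] ℂ => L u) h4

/-- where a coordinate vanishes, its derivative does not -/
theorem exists_coord {F : Cn n → Amb n} (hF : Fills' F) (hT : TorusInvariant (F '' UB n))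
    {x : Cn n} (hx : x ∈ closedBall (0 : Cn n) 1) {j : Fin n} (h0 : (F x).1 j = 0) :
    ∃ u, (fderiv ℝ F x u).1 j ≠ 0 := by
  by_contra hcon
  push Not at hcon
  have hps : PreconnectedSpace (closedBall (0 : Cn n) 1) :=
    Subtype.preconnectedSpace (convex_closedBall (0 : Cn n) 1).isPreconnected
  set S : Set (closedBall (0 : Cn n) 1) :=
    {y | (F y).1 j = 0 ∧ ∀ u, (fderiv ℝ F (y : Cn n) u).1 j = 0} with hS
  have hcl : IsClosed S := by
    have h1 : Continuous fun y : closedBall (0 : Cn n) 1 => (F y).1 j := by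
      have := hF.smooth.continuous
      fun_prop
    have h2 : ∀ u : Cn n, Continuous fun y : closedBall (0 : Cn n) 1 =>
        (fderiv ℝ F (y : Cn n) u).1 j := by
      intro u
      have h3 : Continuous (fderiv ℝ F) := hF.smooth.continuous_fderiv (by simp)
      have h4 : Continuous fun y : closedBall (0 : Cn n) 1 => fderiv ℝ F (y : Cn n) u :=
        (h3.comp continuous_subtype_val).clm_apply continuous_const
      fun_prop
    have h5 : S = {y : closedBall (0 : Cn n) 1 | (F y).1 j = 0} ∩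
        ⋂ u : Cn n, {y : closedBall (0 : Cn n) 1 | (fderiv ℝ F (y : Cn n) u).1 j = 0} := by
      ext y
      simp [hS]
    rw [h5]
    exact (isClosed_eq h1 continuous_const).inter
      (isClosed_iInter fun u => isClosed_eq (h2 u) continuous_const)
  have hop : IsOpen S := by
    rw [isOpen_iff_mem_nhds]
    intro y hy
    have h1 := fix_near hF hT y.2 hy.1 hy.2
    have h2 : ∀ᶠ z in 𝓝[closedBall (0 : Cn n) 1] (y : Cn n),
        ∀ᶠ w in 𝓝[closedBall (0 : Cn n) 1] z, (F w).1 j = 0 :=
      eventually_eventually_nhdsWithin.2 h1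
    have h3 : ∀ᶠ z in 𝓝[closedBall (0 : Cn n) 1] (y : Cn n),
        z ∈ closedBall (0 : Cn n) 1 → ((F z).1 j = 0 ∧ ∀ u, (fderiv ℝ F z u).1 j = 0) := by
      filter_upwards [h1, h2] with z hz1 hz2 hz3
      exact ⟨hz1, deriv_zero hF hz3 hz2⟩
    have h4 := eventually_nhds_subtype_iff (closedBall (0 : Cn n) 1) y
      (fun z => z ∈ closedBall (0 : Cn n) 1 → ((F z).1 j = 0 ∧ ∀ u, (fderiv ℝ F z u).1 j = 0))
    have h5 := h4.2 h3
    filter_upwards [h5] with z hz
    exact hz z.2
  have hne : S.Nonempty := ⟨⟨x, hx⟩, h0, hcon⟩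
  have hall : S = univ := (isClopen_iff.1 ⟨hcl, hop⟩).resolve_left hne.ne_empty
  -- the boundary contains a point with nonzero coordinate
  have hK : ((EuclideanSpace.single j (1 : ℂ), 0) : Amb n) ∈ K n := by
    refine ⟨?_, rfl⟩
    simp [sqn]
  rw [← hF.boundary] at hK
  obtain ⟨y, hy, hy2⟩ := hK
  have h6 : (⟨y, sphere_subset_closedBall hy⟩ : closedBall (0 : Cn n) 1) ∈ S := by
    rw [hall]; trivial
  have h7 : (F y).1 j = 0 := h6.1
  rw [hy2] at h7
  simp at h7

/-- inward vectors: reflected tangent vectors are tangent -/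
theorem refl_inward {F : Cn n → Amb n} (hF : Fills' F) (hT : TorusInvariant (F '' UB n))
    {a : Fin n → ℂ} (ha : ∀ j, ‖a j‖ = 1)
    {x : Cn n} (hx : x ∈ closedBall (0 : Cn n) 1) (hfix : rotA a (F x) = F x) {u : Cn n}
    {t : ℕ → ℝ} (ht0 : ∀ m, t m ≠ 0) (ht : Tendsto t atTop (𝓝 0))
    (hu : ∀ m, x + t m • u ∈ closedBall (0 : Cn n) 1) :
    ∃ v, fderiv ℝ F x v = rotA a (fderiv ℝ F x u) := by
  have hex : ∀ m, ∃ y ∈ closedBall (0 : Cn n) 1, F y = rotA a (F (x + t m • u)) := fun m =>
    lift_rot hT ha (hu m)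
  choose y hy hFy using hex
  apply tangent_cone hF hx hy ht0 ht
  have hd : HasFDerivAt F (fderiv ℝ F x) x :=
    (hF.smooth.differentiable (by simp)).differentiableAt.hasFDerivAt
  have h1 : Tendsto (fun m => (t m)⁻¹ • (F (x + t m • u) - F x)) atTop (𝓝 (fderiv ℝ F x u)) := by
    have h2 : HasDerivAt (fun s : ℝ => F (x + s • u)) (fderiv ℝ F x u) 0 := by
      have h3 : HasDerivAt (fun s : ℝ => x + s • u) u 0 := by
        simpa using ((hasDerivAt_id (0 : ℝ)).smul_const u).const_add x
      have h4 : HasFDerivAt F (fderiv ℝ F x) ((fun s : ℝ => x + s • u) 0) := by simpa using hd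
      exact h4.comp_hasDerivAt (0 : ℝ) h3
    have h5 := h2.tendsto_slope_zero
    have h6 : Tendsto t atTop (𝓝[≠] 0) :=
      tendsto_nhdsWithin_iff.2 ⟨ht, Eventually.of_forall fun m => ht0 m⟩
    have h7 := h5.comp h6
    refine h7.congr fun m => ?_
    simp
  have h8 := ((rotA a).continuous.tendsto _).comp h1
  refine h8.congr fun m => ?_
  simp only [Function.comp_apply, map_smul, map_sub, hfix, hFy]

theorem refl_tangent {F : Cn n → Amb n} (hF : Fills' F) (hT : TorusInvariant (F '' UB n))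
    {a : Fin n → ℂ} (ha : ∀ j, ‖a j‖ = 1)
    {x : Cn n} (hx : x ∈ closedBall (0 : Cn n) 1) (hfix : rotA a (F x) = F x) (u : Cn n) :
    ∃ v, fderiv ℝ F x v = rotA a (fderiv ℝ F x u) := by
  have hxn : ‖x‖ ≤ 1 := by simpa using hx
  set t : ℕ → ℝ := fun m => 1 / ((m : ℝ) + 1) / (‖u‖ + 1) with ht
  have hup : 0 < ‖u‖ + 1 := by positivity
  have htpos : ∀ m, 0 < t m := fun m => by rw [ht]; positivity
  have ht0 : ∀ m, t m ≠ 0 := fun m => (htpos m).ne'
  have htl : Tendsto t atTop (𝓝 0) := by
    have := (tendsto_one_div_add_atTop_nhds_zero_nat (𝕜 := ℝ)).div_const (‖u‖ + 1)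
    simpa [ht] using this
  have ht1 : ∀ m, t m * (‖u‖ + 1) ≤ 1 := by
    intro m
    rw [ht]
    simp only
    rw [div_mul_cancel₀ _ hup.ne']
    rw [div_le_one (by positivity)]
    have : (0 : ℝ) ≤ m := Nat.cast_nonneg m
    linarith
  have h1 : ∀ m, x + t m • (u - ‖u‖ • x) ∈ closedBall (0 : Cn n) 1 := by
    intro m
    rw [mem_closedBall_zero_iff]
    have h2 : x + t m • (u - ‖u‖ • x) = (1 - t m * ‖u‖) • x + t m • u := by
      rw [smul_sub, sub_smul, one_smul, smul_smul]
      abel
    rw [h2]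
    have h3 : 0 ≤ 1 - t m * ‖u‖ := by nlinarith [htpos m, ht1 m]
    calc ‖(1 - t m * ‖u‖) • x + t m • u‖ ≤ ‖(1 - t m * ‖u‖) • x‖ + ‖t m • u‖ := norm_add_le _ _
      _ = (1 - t m * ‖u‖) * ‖x‖ + t m * ‖u‖ := by
        rw [norm_smul, norm_smul, Real.norm_of_nonneg h3, Real.norm_of_nonneg (htpos m).le]
      _ ≤ (1 - t m * ‖u‖) * 1 + t m * ‖u‖ := by
        have := mul_le_mul_of_nonneg_left hxn h3
        linarith
      _ = 1 := by ring
  have h4 : ∀ m, x + t m • (-x) ∈ closedBall (0 : Cn n) 1 := by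
    intro m
    rw [mem_closedBall_zero_iff]
    have h2 : x + t m • (-x) = (1 - t m) • x := by
      rw [smul_neg, sub_smul, one_smul]
      abel
    have h3 : t m ≤ 1 := by nlinarith [htpos m, ht1 m, norm_nonneg u]
    rw [h2, norm_smul, Real.norm_of_nonneg (by linarith)]
    have := mul_le_mul_of_nonneg_left hxn (by linarith : (0 : ℝ) ≤ 1 - t m)
    linarith [htpos m]
  obtain ⟨v1, hv1⟩ := refl_inward hF hT ha hx hfix ht0 htl h1
  obtain ⟨v2, hv2⟩ := refl_inward hF hT ha hx hfix ht0 htl h4
  refine ⟨v1 - ‖u‖ • v2, ?_⟩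
  rw [map_sub, map_smul, hv1, hv2]
  rw [← map_smul, ← map_sub, ← map_smul, ← map_sub]
  congr 2
  rw [smul_neg]
  abel

/-- every tangent space contains a nonzero vector in every coordinate direction -/
theorem coord_vec {F : Cn n → Amb n} (hF : Fills' F) (hT : TorusInvariant (F '' UB n))
    {x : Cn n} (hx : x ∈ closedBall (0 : Cn n) 1) (j : Fin n) :
    ∃ u : Cn n, ∃ α : ℂ, α ≠ 0 ∧ fderiv ℝ F x u = vec j α := by
  by_cases h0 : (F x).1 j = 0
  · obtain ⟨u, hu⟩ := exists_coord hF hT hx h0
    have hc1 : ‖(-1 : ℂ)‖ = 1 := by simp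
    have hfix : rotA (one_rot j (-1)) (F x) = F x := by
      have := rot_sub j (-1) (F x)
      rw [h0, mul_zero] at this
      rw [sub_eq_iff_eq_add] at this
      rw [this]
      have hv : vec j (0 : ℂ) = (0 : Amb n) := by
        unfold vec; ext <;> simp
      rw [hv, zero_add]
    obtain ⟨v, hv⟩ := refl_tangent hF hT (one_rot_norm j hc1) hx hfix u
    refine ⟨v - u, (-1 - 1) * (fderiv ℝ F x u).1 j, mul_ne_zero (by norm_num) hu, ?_⟩
    rw [map_sub, hv, rot_sub]
  · set t : ℕ → ℝ := fun m => 1 / ((m : ℝ) + 1) with ht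
    have htpos : ∀ m, 0 < t m := fun m => by rw [ht]; positivity
    have ht0 : ∀ m, t m ≠ 0 := fun m => (htpos m).ne'
    have htl : Tendsto t atTop (𝓝 0) := tendsto_one_div_add_atTop_nhds_zero_nat (𝕜 := ℝ)
    set c : ℝ → ℂ := fun s => Complex.exp (s * Complex.I) with hc
    have hcn : ∀ s, ‖c s‖ = 1 := fun s => Complex.norm_exp_ofReal_mul_I s
    have hex : ∀ m, ∃ y ∈ closedBall (0 : Cn n) 1, F y = rotA (one_rot j (c (t m))) (F x) :=
      fun m => lift_rot hT (one_rot_norm j (hcn _)) hx
    choose y hy hFy using hex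
    have hlim : Tendsto (fun m => (t m)⁻¹ • (F (y m) - F x)) atTop
        (𝓝 (vec j (Complex.I * (F x).1 j))) := by
      have h1 : ∀ m, (t m)⁻¹ • (F (y m) - F x) = vec j (((t m)⁻¹ • (c (t m) - 1)) * (F x).1 j) := by
        intro m
        rw [hFy, rot_sub]
        unfold vec
        apply Prod.ext
        · ext k
          simp only [Prod.smul_fst, PiLp.smul_apply, PiLp.single_apply]
          split_ifs
          · simp only [Complex.real_smul]; ring
          · simp
        · simp
      have h2 : HasDerivAt c Complex.I 0 := by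
        have h3 : HasDerivAt (fun s : ℝ => (s : ℂ) * Complex.I) Complex.I 0 := by
          have h4 : HasDerivAt (fun s : ℝ => (s : ℂ)) 1 0 := Complex.ofRealCLM.hasDerivAt
          simpa using h4.mul_const Complex.I
        have h5 := h3.cexp
        simpa using h5
      have h6 := h2.tendsto_slope_zero
      have h7 : Tendsto t atTop (𝓝[≠] 0) :=
        tendsto_nhdsWithin_iff.2 ⟨htl, Eventually.of_forall fun m => ht0 m⟩
      have h8 := h6.comp h7
      have h9 : Tendsto (fun m => (t m)⁻¹ • (c (t m) - 1)) atTop (𝓝 Complex.I) := by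
        refine h8.congr fun m => ?_
        simp [hc]
      have h10 : Tendsto (fun m => ((t m)⁻¹ • (c (t m) - 1)) * (F x).1 j) atTop
          (𝓝 (Complex.I * (F x).1 j)) := h9.mul_const _
      have h11 : Continuous fun z : ℂ => (vec j z : Amb n) := by
        unfold vec
        have h12 : Continuous fun z : ℂ => (EuclideanSpace.single j z : Cn n) := by
          have h13 : LipschitzWith 1 fun z : ℂ => (EuclideanSpace.single j z : Cn n) := by
            apply LipschitzWith.of_dist_le_mul
            intro z w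
            rw [dist_eq_norm, dist_eq_norm]
            have : (EuclideanSpace.single j z : Cn n) - EuclideanSpace.single j w =
                EuclideanSpace.single j (z - w) := by
              ext k
              simp only [PiLp.sub_apply, PiLp.single_apply]
              split_ifs <;> simp
            rw [this]
            simp
          exact h13.continuous
        exact h12.prodMk continuous_const
      have h14 := (h11.tendsto _).comp h10
      refine h14.congr fun m => ?_
      rw [h1]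
      rfl
    obtain ⟨u, hu⟩ := tangent_cone hF hx hy ht0 htl hlim
    exact ⟨u, Complex.I * (F x).1 j, mul_ne_zero Complex.I_ne_zero h0, hu⟩

end Pool.Agent.SFill
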