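import Pool.Agent.SFill.Torus2

open Metric Set Filter Topology
open scoped ContDiff

namespace Pool.Agent.SFill

variable {n : ℕ}

theorem omega_add_left (p p' q : Amb n) : omega (p + p') q = omega p q + omega p' q := by
  rw [omega_eq, omega_eq, omega_eq]
  simp only [Prod.fst_add, Prod.snd_add, om_add_left, Complex.add_re, Complex.add_im]
  ring

theorem omega_swap (p q : Amb n) : omega p q = - omega q p := by
  rw [omega_eq, omega_eq, om_swap]
  ring

theorem omega_add_right (p q q' : Amb n) : omega p (q + q') = omega p q + omega p q' := by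
  rw [omega_swap, omega_add_left, omega_swap q p, omega_swap q' p]
  ring

theorem omega_smul_left (c : ℝ) (p q : Amb n) : omega (c • p) q = c * omega p q := by
  rw [omega_eq, omega_eq]
  simp only [Prod.smul_fst, Prod.smul_snd, om_smul_left, Complex.smul_re, Complex.smul_im,
    smul_eq_mul]
  ring

theorem omega_smul_right (c : ℝ) (p q : Amb n) : omega p (c • q) = c * omega p q := by
  rw [omega_swap, omega_smul_left, omega_swap q p]
  ring

/-- the form pulled back by a linear map -/
noncomputable def bil (A : Cn n →L[ℝ] Amb n) : Cn n →ₗ[ℝ] Cn n →ₗ[ℝ] ℝ :=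
  LinearMap.mk₂ ℝ (fun u v => omega (A u) (A v))
    (fun u u' v => by rw [map_add, omega_add_left])
    (fun c u v => by rw [map_smul, omega_smul_left, smul_eq_mul])
    (fun u v v' => by rw [map_add, omega_add_right])
    (fun c u v => by rw [map_smul, omega_smul_right, smul_eq_mul])

theorem bil_apply (A : Cn n →L[ℝ] Amb n) (u v : Cn n) : bil A u v = omega (A u) (A v) := rfl

theorem no_vertical {A : Cn n →L[ℝ] Amb n} (hinj : ∀ u, A u = 0 → u = 0)
    (hnd : ∀ u, u ≠ 0 → ∃ v, omega (A u) (A v) ≠ 0)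
    (hv : ∀ j : Fin n, ∃ u : Cn n, ∃ α : ℂ, α ≠ 0 ∧ A u = vec j α) :
    ∀ u, (A u).1 = 0 → u = 0 := by
  intro u0 h1
  by_contra hu0
  have hc : (A u0).2 ≠ 0 := by
    intro h2
    exact hu0 (hinj u0 (Prod.ext h1 h2))
  set c := (A u0).2 with hcdef
  choose u α hα hu using hv
  set G : ((Fin n → ℝ) × ℝ) →ₗ[ℝ] Cn n :=
    { toFun := fun p => ∑ j, p.1 j • u j + p.2 • u0
      map_add' := by
        intro p q
        simp only [Prod.fst_add, Prod.snd_add, Pi.add_apply, add_smul, Finset.sum_add_distrib]
        abel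
      map_smul' := by
        intro r p
        simp only [Prod.smul_fst, Prod.smul_snd, Pi.smul_apply, smul_eq_mul, RingHom.id_apply,
          smul_add, Finset.smul_sum, mul_smul] } with hG
  have hAG : ∀ p, A (G p) = ∑ j, p.1 j • vec j (α j) + p.2 • A u0 := by
    intro p
    have h2 : G p = ∑ j, p.1 j • u j + p.2 • u0 := rfl
    rw [h2, map_add, map_sum, map_smul]
    congr 1
    apply Finset.sum_congr rfl
    intro j _
    rw [map_smul, hu]
  have hAG1 : ∀ p k, (A (G p)).1 k = (p.1 k : ℂ) * α k := by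
    intro p k
    rw [hAG]
    have h2 : (∑ j, p.1 j • (vec j (α j) : Amb n) + p.2 • A u0).1 k =
        ∑ j, (p.1 j • (vec j (α j) : Amb n)).1 k + (p.2 • A u0).1 k := by
      rw [Prod.fst_add, PiLp.add_apply, Prod.fst_sum]
      simp
    rw [h2]
    have h3 : (p.2 • A u0).1 k = 0 := by
      rw [Prod.smul_fst, h1]
      simp
    rw [h3, add_zero, Finset.sum_eq_single k]
    · simp [vec]
    · intro j _ hjk
      simp only [vec, Prod.smul_fst, PiLp.smul_apply, PiLp.single_apply]
      rw [if_neg (Ne.symm hjk), smul_zero]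
    · intro h; exact absurd (Finset.mem_univ k) h
  have hAG2 : ∀ p, (A (G p)).2 = (p.2 : ℂ) * c := by
    intro p
    rw [hAG, Prod.snd_add, Prod.snd_sum]
    have h2 : ∑ j, (p.1 j • (vec j (α j) : Amb n)).2 = 0 := by
      apply Finset.sum_eq_zero
      intro j _
      simp [vec]
    rw [h2, zero_add, Prod.smul_snd, Complex.real_smul]
  have hGinj : Function.Injective G := by
    rw [← LinearMap.ker_eq_bot, LinearMap.ker_eq_bot']
    intro p hp
    have h2 : A (G p) = 0 := by rw [hp, map_zero]
    have h3 : p.1 = 0 := by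
      funext k
      have h4 := hAG1 p k
      rw [h2] at h4
      have h5 : (p.1 k : ℂ) * α k = 0 := h4.symm
      have h6 := (mul_eq_zero.1 h5).resolve_right (hα k)
      exact_mod_cast h6
    have h7 : p.2 = 0 := by
      have h4 := hAG2 p
      rw [h2] at h4
      have h5 : (p.2 : ℂ) * c = 0 := h4.symm
      have h6 := (mul_eq_zero.1 h5).resolve_right hc
      exact_mod_cast h6
    exact Prod.ext h3 h7
  have hiso : ∀ p q, omega (A (G p)) (A (G q)) = 0 := by
    intro p q
    unfold omega herm
    rw [PiLp.inner_apply, Complex.add_im, Complex.im_sum]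
    have h2 : ∀ k, (inner ℂ ((A (G p)).1 k) ((A (G q)).1 k)).im = 0 := by
      intro k
      rw [hAG1, hAG1, RCLike.inner_apply, map_mul, Complex.conj_ofReal]
      have : (q.1 k : ℂ) * α k * ((p.1 k : ℂ) * (starRingEnd ℂ) (α k)) =
          ((q.1 k * p.1 k * Complex.normSq (α k) : ℝ) : ℂ) := by
        rw [Complex.ofReal_mul, Complex.ofReal_mul, Complex.normSq_eq_conj_mul_self]
        ring
      rw [this, Complex.ofReal_im]
    have h3 : ((starRingEnd ℂ) (A (G p)).2 * (A (G q)).2).im = 0 := by
      rw [hAG2, hAG2, map_mul, Complex.conj_ofReal]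
      have : (p.2 : ℂ) * (starRingEnd ℂ) c * ((q.2 : ℂ) * c) =
          ((p.2 * q.2 * Complex.normSq c : ℝ) : ℂ) := by
        rw [Complex.ofReal_mul, Complex.ofReal_mul, Complex.normSq_eq_conj_mul_self]
        ring
      rw [this, Complex.ofReal_im]
    rw [h3, add_zero]
    exact Finset.sum_eq_zero fun k _ => h2 k
  -- dimension count
  have hBinj : Function.Injective (bil A) := by
    rw [← LinearMap.ker_eq_bot, LinearMap.ker_eq_bot']
    intro v hv
    by_contra hv0
    obtain ⟨w, hw⟩ := hnd v hv0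
    apply hw
    rw [← bil_apply, hv]
    rfl
  set Θ : ((Fin n → ℝ) × ℝ) →ₗ[ℝ] Module.Dual ℝ (Cn n) := (bil A).comp G with hΘ
  have hΘinj : Function.Injective Θ := hBinj.comp hGinj
  have hle : LinearMap.range Θ ≤ (LinearMap.range G).dualAnnihilator := by
    rintro _ ⟨p, rfl⟩
    rw [Submodule.mem_dualAnnihilator]
    rintro _ ⟨q, rfl⟩
    exact hiso p q
  have hd1 : Module.finrank ℝ (LinearMap.range Θ) = n + 1 := by
    rw [LinearMap.finrank_range_of_inj hΘinj]
    simp
  have hd2 : Module.finrank ℝ (LinearMap.range G) = n + 1 := by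
    rw [LinearMap.finrank_range_of_inj hGinj]
    simp
  have hd3 := Subspace.finrank_add_finrank_dualAnnihilator_eq (LinearMap.range G)
  have hd4 := Submodule.finrank_mono hle
  have hd5 : Module.finrank ℝ (Cn n) = 2 * n := by
    rw [← Module.finrank_mul_finrank ℝ ℂ (Cn n)]
    simp [Complex.finrank_real_complex]
  omega

/-- an invariant filling is transversal to the vertical direction -/
theorem torus_transverse {F : Cn n → Amb n} (hF : Fills' F) (hT : TorusInvariant (F '' UB n)) :
    ∀ x ∈ closedBall (0 : Cn n) 1, ∀ u, (fderiv ℝ F x u).1 = 0 → u = 0 := by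
  intro x hx
  exact no_vertical (hF.immersion x hx) (hF.symplectic x hx) (fun j => coord_vec hF hT hx j)

theorem fam_invariant {F : Cn n → Amb n} (hT : TorusInvariant (F '' UB n)) (s : ℝ) :
    TorusInvariant (fam F s '' UB n) := by
  rintro a ha _ ⟨x, hx, rfl⟩ q hq1 hq2
  obtain ⟨y, hy, hFy⟩ := hT a ha (F x) (mem_image_of_mem F hx) (rotA a (F x))
    (fun j => rfl) rfl
  refine ⟨y, hy, ?_⟩
  apply Prod.ext
  · ext k
    rw [hq1 k]
    simp only [fam, hFy]
    rfl
  · rw [hq2]
    simp only [fam, hFy]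
    rfl

/-- an invariant filling is isotopic to the disc through invariant fillings -/
theorem main_torus (hn : 1 ≤ n) {F : Cn n → Amb n} (hF : Fills F)
    (hT : TorusInvariant (F '' UB n)) :
    ∃ H : ℝ × Cn n → Amb n, ContDiff ℝ ∞ H ∧
      (∀ t ∈ Icc (0 : ℝ) 1, Fills (fun x => H (t, x)) ∧
        TorusInvariant ((fun x => H (t, x)) '' UB n)) ∧
      (fun x => H (0, x)) '' UB n = F '' UB n ∧ (fun x => H (1, x)) '' UB n = D0 n := by
  have hF' := fills_iff.1 hF
  obtain ⟨h1, h2⟩ := strong hn hF' (torus_transverse hF' hT)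
  refine ⟨fun q => fam F (1 - q.1) q.2, contDiff_fam hF.embeds.1, ?_, ?_, ?_⟩
  · intro t ht
    exact ⟨fills_iff.2 (h1 (1 - t) ⟨by linarith [ht.2], by linarith [ht.1]⟩),
      fam_invariant hT (1 - t)⟩
  · apply image_congr
    intro x _
    simp [fam]
  · rw [← h2]
    apply image_congr
    intro x _
    simp [fam]

end Pool.Agent.SFill
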